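import Pool.Agent.H37.CNL.Stmts

/-!
# Board cnl, row VVV: the order of the derivative
-/

set_option autoImplicit false

namespace Pool.CND

open Finset

section

variable {k L : Type} [Field k] [Field L] [Algebra k L]

theorem vvv_zero {t : L} {Δ : L → L} (h : DD k t Δ) : Δ 0 = 0 := by
  have := h.add 0 0
  rw [add_zero] at this
  exact left_eq_add.mp this

theorem vvv_sum {t : L} {Δ : L → L} (h : DD k t Δ) {ι : Type} (s : Finset ι) (f : ι → L) :
    Δ (∑ i ∈ s, f i) = ∑ i ∈ s, Δ (f i) := by
  classical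
  induction s using Finset.induction_on with
  | empty => simp [vvv_zero h]
  | insert a s ha ih => rw [Finset.sum_insert ha, Finset.sum_insert ha, h.add, ih]

theorem vvv_one {t : L} {Δ : L → L} (h : DD k t Δ) : Δ 1 = 0 := by
  have := h.con 1
  rwa [map_one] at this

theorem vvv_pow {t : L} {Δ : L → L} (h : DD k t Δ) (a : L) (n : ℕ) :
    Δ (a ^ n) = n * a ^ (n - 1) * Δ a := by
  induction n with
  | zero => simp [vvv_one h]
  | succ n ih =>
    rw [pow_succ, h.mul, ih]
    rcases n with _ | n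
    · simp
    · rw [Nat.add_sub_cancel, Nat.add_sub_cancel]
      push_cast
      ring

end

theorem vvv_thm (h1 : S_VAS) (h2 : S_VVA) (h3 : S_VVB) (h4 : S_TOT) (h5 : S_VEC) : S_VVV := by
  intro p k L G _ _ _ _ _ _ ρ t P Δ M hP hM x hx0 hx
  obtain ⟨-, hfix, hot, hum, hinj⟩ := h1 p k L G ρ t P Δ hP
  have hG0 : 0 < Nat.card G := Nat.card_pos
  have htot : ∀ y : L, y ≠ 0 → (∀ g : G, ρ g y = y) → (Nat.card G : ℤ) ∣ P.ord y := by
    intro y hy hg
    have := h4 k L G P ρ ⊤ hinj (fun n _ => hfix n) y hy (fun n _ => hg n)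
    rwa [Subgroup.card_top] at this
  by_cases hMt : M = ⊤
  · subst hMt
    have hS : So P ρ (⊤ : Subgroup G) = 0 := by
      unfold So sm
      apply Finset.sum_eq_zero
      intro g hg
      simp at hg
    have hg : ∀ g : G, ρ g x = x := fun g => hx g (Subgroup.mem_top g)
    obtain ⟨m, hm⟩ := htot x hx0 hg
    obtain ⟨hb1, hb2⟩ := hP.base x hx0 hg
    rw [Subgroup.card_top, hS, sub_zero]
    exact ⟨m, hm, hb1, hb2 m hm⟩
  · obtain ⟨α, hα0, hαM, hαo, hΔα, hΔαo⟩ := h2 p k L G ρ t P Δ M hP hM hMt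
    obtain ⟨r, hr, hxr⟩ := h3 p k L G ρ t P Δ M α hP hM hα0 hαM hαo x hx
    have hidx : (Nat.card M : ℤ) * M.index = Nat.card G := by
      exact_mod_cast M.card_mul_index
    have hM0 : (0 : ℤ) < Nat.card M := by exact_mod_cast (Nat.card_pos : 0 < Nat.card M)
    -- positivity of `So`
    have hSpos : 1 ≤ So P ρ M := by
      obtain ⟨g, hg⟩ : ∃ g : G, g ∉ M := by
        by_contra hcon
        push Not at hcon
        exact hMt ((Subgroup.eq_top_iff' M).mpr hcon)
      have hpos : ∀ g : G, g ∉ M → 1 ≤ P.b (ρ g) := by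
        intro g hg
        exact hum.pos g (Subgroup.mem_top g) (fun h => hg (h ▸ M.one_mem))
      unfold So sm
      classical
      calc (1 : ℤ) ≤ P.b (ρ g) := hpos g hg
        _ ≤ _ := by
          apply Finset.single_le_sum (f := fun g => P.b (ρ g)) (s := _) (a := g)
          · intro i hi
            simp at hi
            have := hpos i hi
            show (0 : ℤ) ≤ P.b (ρ i)
            omega
          · simp [hg]
    -- the sum over `Fin`
    have hxF : x = ∑ i : Fin M.index, r i * α ^ (i : ℕ) := by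
      rw [hxr, Finset.sum_range]
    have hvec := h5 k L (Fin M.index) P (Nat.card G) (fun i => α ^ (i : ℕ)) (fun i => r i) hG0
      (fun i => pow_ne_zero _ hα0)
      (fun i j hij => by
        rw [P.ord_pow hα0, P.ord_pow hα0, hαo, ← hidx]
        rintro ⟨c, hc⟩
        have hc' : ((i : ℕ) : ℤ) - ((j : ℕ) : ℤ) = M.index * c := by
          have : (Nat.card M : ℤ) * (((i : ℕ) : ℤ) - ((j : ℕ) : ℤ)) = Nat.card M * (M.index * c) := by
            linear_combination hc
          exact mul_left_cancel₀ hM0.ne' this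
        have hi := i.2
        have hj := j.2
        have hne : ((i : ℕ) : ℤ) - ((j : ℕ) : ℤ) ≠ 0 := by
          intro h
          apply hij
          ext
          omega
        rcases lt_trichotomy c 0 with h | h | h
        · nlinarith
        · rw [h, mul_zero] at hc'
          exact hne hc'
        · nlinarith)
      (fun i => by
        by_cases h : r i = 0
        · exact Or.inl h
        · exact Or.inr (htot _ h (hr i)))
      (by
        by_contra hcon
        push Not at hcon
        apply hx0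
        rw [hxF]
        apply Finset.sum_eq_zero
        intro i _
        rw [hcon i, zero_mul])
    obtain ⟨-, i0, hi0, hord, hmin⟩ := hvec
    rw [← hxF] at hord
    obtain ⟨m0, hm0⟩ := htot _ hi0 (hr i0)
    have hoi : ∀ i : Fin M.index, r i ≠ 0 →
        P.ord (r i * α ^ (i : ℕ)) = P.ord (r i) + i * Nat.card M := by
      intro i hi
      rw [P.ord_mul _ _ hi (pow_ne_zero _ hα0), P.ord_pow hα0, hαo]
    -- derivative of a term
    have hΔt : ∀ i : Fin M.index, Δ (r i * α ^ (i : ℕ)) =
        (i : ℕ) * (r i * α ^ ((i : ℕ) - 1) * Δ α) + α ^ (i : ℕ) * Δ (r i) := by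
      intro i
      rw [hP.dd.mul, vvv_pow hP.dd]
      ring
    -- second part
    have hge2 : ∀ i : Fin M.index, P.Ge (α ^ (i : ℕ) * Δ (r i)) (P.ord x) := by
      intro i
      by_cases hi : r i = 0
      · rw [hi, vvv_zero hP.dd, mul_zero]
        exact P.ge_zero _
      · have hb := (hP.base _ hi (hr i)).1
        have h6 := P.ge_mul (P.ge_ord (α ^ (i : ℕ))) hb
        refine P.ge_mono h6 ?_
        rw [hord]
        have h7 := hmin i hi
        rw [P.ord_mul _ _ hi (pow_ne_zero _ hα0)] at h7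
        linarith
    -- first part, exact
    have hex1 : ∀ i : Fin M.index, r i ≠ 0 → (i : ℕ) ≠ 0 →
        (r i * α ^ ((i : ℕ) - 1) * Δ α) ≠ 0 ∧ P.ord (r i * α ^ ((i : ℕ) - 1) * Δ α) =
          P.ord (r i * α ^ (i : ℕ)) - So P ρ M := by
      intro i hi hi1
      refine ⟨mul_ne_zero (mul_ne_zero hi (pow_ne_zero _ hα0)) hΔα, ?_⟩
      rw [P.ord_mul _ _ (mul_ne_zero hi (pow_ne_zero _ hα0)) hΔα,
        P.ord_mul _ _ hi (pow_ne_zero _ hα0), P.ord_pow hα0, hΔαo, hoi i hi, hαo]
      have : (((i : ℕ) - 1 : ℕ) : ℤ) = ((i : ℕ) : ℤ) - 1 := by omega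
      rw [this]
      ring
    have hnat : ∀ n : ℕ, P.Ge ((n : ℕ) : L) 0 := by
      intro n
      have := P.ge_const (n : k)
      rwa [map_natCast] at this
    have hge1 : ∀ i : Fin M.index, P.Ge (((i : ℕ) : L) * (r i * α ^ ((i : ℕ) - 1) * Δ α))
        (P.ord x - So P ρ M) := by
      intro i
      by_cases hi : r i = 0
      · rw [hi, zero_mul, zero_mul, mul_zero]
        exact P.ge_zero _
      by_cases hi1 : (i : ℕ) = 0
      · rw [hi1, Nat.cast_zero, zero_mul]
        exact P.ge_zero _
      obtain ⟨-, h6⟩ := hex1 i hi hi1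
      have h7 := P.ge_mul (hnat (i : ℕ)) (P.ge_ord (r i * α ^ ((i : ℕ) - 1) * Δ α))
      refine P.ge_mono h7 ?_
      rw [h6, hord]
      have := hmin i hi
      linarith
    -- strictly larger for `i ≠ i0`
    have hge1' : ∀ i : Fin M.index, i ≠ i0 →
        P.Ge (((i : ℕ) : L) * (r i * α ^ ((i : ℕ) - 1) * Δ α)) (P.ord x - So P ρ M + 1) := by
      intro i hii
      by_cases hi : r i = 0
      · rw [hi, zero_mul, zero_mul, mul_zero]
        exact P.ge_zero _
      by_cases hi1 : (i : ℕ) = 0
      · rw [hi1, Nat.cast_zero, zero_mul]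
        exact P.ge_zero _
      obtain ⟨-, h6⟩ := hex1 i hi hi1
      have h7 := P.ge_mul (hnat (i : ℕ)) (P.ge_ord (r i * α ^ ((i : ℕ) - 1) * Δ α))
      refine P.ge_mono h7 ?_
      rw [h6, hord]
      have h8 := hmin i hi
      have h9 : P.ord (r i0 * α ^ (i0 : ℕ)) ≠ P.ord (r i * α ^ (i : ℕ)) := by
        intro h
        obtain ⟨m1, hm1⟩ := htot _ hi (hr i)
        rw [hoi i0 hi0, hoi i hi, hm0, hm1, ← hidx] at h
        have hc' : ((i : ℕ) : ℤ) - ((i0 : ℕ) : ℤ) = M.index * (m0 - m1) := by
          have : (Nat.card M : ℤ) * (((i : ℕ) : ℤ) - ((i0 : ℕ) : ℤ)) =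
              Nat.card M * (M.index * (m0 - m1)) := by
            linear_combination -h
          exact mul_left_cancel₀ hM0.ne' this
        have hi' := i.2
        have hj := i0.2
        have hne : ((i : ℕ) : ℤ) - ((i0 : ℕ) : ℤ) ≠ 0 := by
          intro h
          apply hii
          ext
          omega
        rcases lt_trichotomy (m0 - m1) 0 with h | h | h
        · nlinarith
        · rw [h, mul_zero] at hc'
          exact hne hc'
        · nlinarith
      have h10 : P.ord (r i0 * α ^ (i0 : ℕ)) + 1 ≤ P.ord (r i * α ^ (i : ℕ)) := by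
        have := lt_of_le_of_ne h8 h9
        omega
      linarith
    have hΔx : Δ x = ∑ i : Fin M.index, (((i : ℕ) : L) * (r i * α ^ ((i : ℕ) - 1) * Δ α) +
        α ^ (i : ℕ) * Δ (r i)) := by
      conv_lhs => rw [hxF]
      rw [vvv_sum hP.dd]
      exact Finset.sum_congr rfl (fun i _ => hΔt i)
    refine ⟨M.index * m0 + i0, ?_, ?_, ?_⟩
    · rw [hord, hoi i0 hi0, hm0, ← hidx]
      ring
    · rw [hΔx]
      apply P.ge_sum
      intro i _
      exact P.ge_add (hge1 i) (P.ge_mono (hge2 i) (by linarith))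
    · intro hpm
      -- `p` divides the index
      have hpi : (p : ℤ) ∣ M.index := by
        obtain ⟨n, hn⟩ := hP.cd
        have hd : M.index ∣ p ^ n := hn ▸ M.index_dvd_card
        obtain ⟨j, -, hj⟩ := (Nat.dvd_prime_pow hP.pr).mp hd
        have hj0 : j ≠ 0 := by
          intro h
          rw [h, pow_zero] at hj
          exact hMt (Subgroup.index_eq_one.mp hj)
        rw [hj]
        push_cast
        exact dvd_pow_self _ hj0
      have hpi0 : ¬ (p : ℤ) ∣ ((i0 : ℕ) : ℤ) := by
        intro h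
        exact hpm (dvd_add (Dvd.dvd.mul_right hpi m0) h)
      have hi00 : (i0 : ℕ) ≠ 0 := by
        intro h
        apply hpi0
        rw [h]
        simp
      have hch : CharP L p := by
        have := hP.ch
        exact charP_of_injective_algebraMap (algebraMap k L).injective p
      have hL0 : ((i0 : ℕ) : L) ≠ 0 := by
        intro h
        rw [CharP.cast_eq_zero_iff L p] at h
        exact hpi0 (by exact_mod_cast h)
      have hk0 : ((i0 : ℕ) : k) ≠ 0 := by
        intro h
        apply hL0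
        have := congrArg (algebraMap k L) h
        rwa [map_natCast, map_zero] at this
      obtain ⟨h6, h7⟩ := hex1 i0 hi0 hi00
      have h8 : ((i0 : ℕ) : L) * (r i0 * α ^ ((i0 : ℕ) - 1) * Δ α) ≠ 0 := mul_ne_zero hL0 h6
      have h9 : P.ord (((i0 : ℕ) : L) * (r i0 * α ^ ((i0 : ℕ) - 1) * Δ α)) =
          P.ord x - So P ρ M := by
        rw [P.ord_mul _ _ hL0 h6, h7, hord]
        have := P.ord_const ((i0 : ℕ) : k) hk0
        rw [map_natCast] at this
        rw [this, zero_add]
      classical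
      have hsplit : Δ x = ((i0 : ℕ) : L) * (r i0 * α ^ ((i0 : ℕ) - 1) * Δ α) +
          (α ^ (i0 : ℕ) * Δ (r i0) + ∑ i ∈ Finset.univ.erase i0,
            (((i : ℕ) : L) * (r i * α ^ ((i : ℕ) - 1) * Δ α) + α ^ (i : ℕ) * Δ (r i))) := by
        rw [hΔx, ← Finset.add_sum_erase _ _ (Finset.mem_univ i0)]
        ring
      have hrest : P.Ge (α ^ (i0 : ℕ) * Δ (r i0) + ∑ i ∈ Finset.univ.erase i0,
          (((i : ℕ) : L) * (r i * α ^ ((i : ℕ) - 1) * Δ α) + α ^ (i : ℕ) * Δ (r i)))
          (P.ord (((i0 : ℕ) : L) * (r i0 * α ^ ((i0 : ℕ) - 1) * Δ α)) + 1) := by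
        rw [h9]
        apply P.ge_add (P.ge_mono (hge2 i0) (by linarith))
        apply P.ge_sum
        intro i hi
        exact P.ge_add (hge1' i (Finset.ne_of_mem_erase hi)) (P.ge_mono (hge2 i) (by linarith))
      obtain ⟨h10, h11⟩ := P.ord_add_of_lt h8 hrest
      rw [← hsplit] at h10 h11
      exact ⟨h10, by rw [h11, h9]⟩

end Pool.CND
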